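import Pool.Agent.H93.EN.Targets4

/-!
# B2: averages and modes of bounded functions
-/

namespace Pool.Agent.H77.EN

open MeasureTheory Set Metric Filter Topology Pool.Agent.H93.EN
open Pool.Agent.H93.BL hiding T_B1 T_B2 T_B3 T_SB T_SC

theorem norm_e (θ : ℝ) : ‖Complex.exp ((θ : ℂ) * Complex.I)‖ = 1 := Complex.norm_exp_ofReal_mul_I θ

theorem norm_ek (k : ℤ) (θ : ℝ) : ‖Complex.exp (-((k : ℂ) * (θ : ℂ) * Complex.I))‖ = 1 := by
  have : -((k : ℂ) * (θ : ℂ) * Complex.I) = ((-(k * θ) : ℝ) : ℂ) * Complex.I := by
    push_cast; ring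
  rw [this]; exact norm_e _

theorem meas_e {g : ℂ → ℝ} (hg : Measurable g) :
    Measurable (fun θ : ℝ => g (Complex.exp ((θ : ℂ) * Complex.I))) := by
  apply hg.comp
  exact (Complex.continuous_exp.comp
    (Complex.continuous_ofReal.mul continuous_const)).measurable

theorem ii_e {g : ℂ → ℝ} {C : ℝ} (hg : Measurable g) (hC : ∀ w, ‖w‖ = 1 → |g w| ≤ C) (a b : ℝ) :
    IntervalIntegrable (fun θ : ℝ => g (Complex.exp ((θ : ℂ) * Complex.I))) volume a b := by
  have hc : IntervalIntegrable (fun _ : ℝ => C) volume a b := intervalIntegrable_const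
  refine hc.mono_fun' (meas_e hg).aestronglyMeasurable ?_
  exact Filter.Eventually.of_forall (fun θ => hC _ (norm_e θ))

theorem ii_ek {g : ℂ → ℝ} {C : ℝ} (hg : Measurable g) (hC : ∀ w, ‖w‖ = 1 → |g w| ≤ C) (k : ℤ)
    (a b : ℝ) :
    IntervalIntegrable (fun θ : ℝ => (g (Complex.exp ((θ : ℂ) * Complex.I)) : ℂ) *
      Complex.exp (-((k : ℂ) * (θ : ℂ) * Complex.I))) volume a b := by
  have hc : IntervalIntegrable (fun _ : ℝ => C) volume a b := intervalIntegrable_const
  refine hc.mono_fun' ?_ ?_
  · apply Measurable.aestronglyMeasurable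
    apply (Complex.measurable_ofReal.comp (meas_e hg)).mul
    apply Continuous.measurable
    fun_prop
  · apply Filter.Eventually.of_forall
    intro θ
    simp only
    rw [norm_mul, norm_ek, mul_one, Complex.norm_real]
    exact hC _ (norm_e θ)

theorem b2 : T_B2 := by
  intro g g' C hg hg' hC hC'
  have h2pi : (0 : ℝ) < 2 * Real.pi := by positivity
  have hinv : (0 : ℝ) < (2 * Real.pi)⁻¹ := by positivity
  refine ⟨?_, ?_, ?_, ?_⟩
  · unfold md av
    push_cast
    congr 1
    rw [← intervalIntegral.integral_ofReal]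
    apply intervalIntegral.integral_congr
    intro θ _
    simp
  · intro hle
    unfold av
    apply mul_le_mul_of_nonneg_left _ hinv.le
    apply intervalIntegral.integral_mono_on h2pi.le (ii_e hg hC _ _) (ii_e hg' hC' _ _)
    intro θ _
    exact hle _ (norm_e θ)
  · unfold av
    have hga : Measurable (fun w => |g w|) := hg.abs
    have h1 : ∫ θ in (0 : ℝ)..(2 * Real.pi), |g (Complex.exp ((θ : ℂ) * Complex.I))| ≤
        ∫ _θ in (0 : ℝ)..(2 * Real.pi), C := by
      apply intervalIntegral.integral_mono_on h2pi.le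
        (ii_e hga (fun w hw => by rw [abs_abs]; exact hC w hw) _ _) intervalIntegrable_const
      intro θ _
      exact hC _ (norm_e θ)
    rw [intervalIntegral.integral_const, sub_zero, smul_eq_mul] at h1
    calc _ ≤ (2 * Real.pi)⁻¹ * (2 * Real.pi * C) := mul_le_mul_of_nonneg_left h1 hinv.le
      _ = C := by field_simp
  · intro k
    refine ⟨?_, ?_, ?_, ?_, ?_⟩
    · unfold md av
      rw [norm_mul, Complex.norm_real, Real.norm_of_nonneg hinv.le]
      apply mul_le_mul_of_nonneg_left _ hinv.le
      refine (intervalIntegral.norm_integral_le_integral_norm h2pi.le).trans (le_of_eq ?_)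
      apply intervalIntegral.integral_congr
      intro θ _
      simp only
      rw [norm_mul, norm_ek, mul_one, Complex.norm_real, Real.norm_eq_abs]
    · unfold md
      rw [map_mul, Complex.conj_ofReal, ← intervalIntegral.intervalIntegral_conj]
      congr 1
      apply intervalIntegral.integral_congr
      intro θ _
      simp only
      rw [map_mul, Complex.conj_ofReal, ← Complex.exp_conj]
      congr 2
      rw [map_neg, map_mul, map_mul, Complex.conj_I, Complex.conj_ofReal, map_intCast]
      push_cast
      ring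
    · unfold md
      rw [← mul_add, ← intervalIntegral.integral_add (ii_ek hg hC k _ _) (ii_ek hg' hC' k _ _)]
      congr 1
      apply intervalIntegral.integral_congr
      intro θ _
      simp only
      push_cast
      ring
    · unfold md
      have h1 : ∫ θ in (0 : ℝ)..(2 * Real.pi),
          (((fun w : ℂ => -(w.im) * g w) (Complex.exp ((θ : ℂ) * Complex.I)) : ℝ) : ℂ) *
            Complex.exp (-((k : ℂ) * (θ : ℂ) * Complex.I)) =
          Complex.I / 2 * (∫ θ in (0 : ℝ)..(2 * Real.pi),
            (g (Complex.exp ((θ : ℂ) * Complex.I)) : ℂ) *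
              Complex.exp (-(((k - 1 : ℤ) : ℂ) * (θ : ℂ) * Complex.I))) -
          Complex.I / 2 * (∫ θ in (0 : ℝ)..(2 * Real.pi),
            (g (Complex.exp ((θ : ℂ) * Complex.I)) : ℂ) *
              Complex.exp (-(((k + 1 : ℤ) : ℂ) * (θ : ℂ) * Complex.I))) := by
        rw [← intervalIntegral.integral_const_mul, ← intervalIntegral.integral_const_mul,
          ← intervalIntegral.integral_sub ((ii_ek hg hC (k - 1) _ _).const_mul _)
            ((ii_ek hg hC (k + 1) _ _).const_mul _)]
        apply intervalIntegral.integral_congr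
        intro θ _
        simp only
        rw [Complex.exp_ofReal_mul_I_im]
        have e1 : Complex.exp (-(((k - 1 : ℤ) : ℂ) * (θ : ℂ) * Complex.I)) =
            Complex.exp (-((k : ℂ) * (θ : ℂ) * Complex.I)) * Complex.exp ((θ : ℂ) * Complex.I) := by
          rw [← Complex.exp_add]; congr 1; push_cast; ring
        have e2 : Complex.exp (-(((k + 1 : ℤ) : ℂ) * (θ : ℂ) * Complex.I)) =
            Complex.exp (-((k : ℂ) * (θ : ℂ) * Complex.I)) * Complex.exp (-(θ : ℂ) * Complex.I) := by
          rw [← Complex.exp_add]; congr 1; push_cast; ring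
        have e3 : ((Real.sin θ : ℝ) : ℂ) =
            (Complex.exp (-(θ : ℂ) * Complex.I) - Complex.exp ((θ : ℂ) * Complex.I)) * Complex.I / 2 := by
          rw [Complex.ofReal_sin]; rfl
        rw [e1, e2]
        push_cast
        rw [← Complex.ofReal_sin, e3]
        ring
      rw [h1]
      ring
    · unfold md
      have h1 : ∫ θ in (0 : ℝ)..(2 * Real.pi),
          (((fun w : ℂ => w.re * g w) (Complex.exp ((θ : ℂ) * Complex.I)) : ℝ) : ℂ) *
            Complex.exp (-((k : ℂ) * (θ : ℂ) * Complex.I)) =
          1 / 2 * (∫ θ in (0 : ℝ)..(2 * Real.pi),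
            (g (Complex.exp ((θ : ℂ) * Complex.I)) : ℂ) *
              Complex.exp (-(((k - 1 : ℤ) : ℂ) * (θ : ℂ) * Complex.I))) +
          1 / 2 * (∫ θ in (0 : ℝ)..(2 * Real.pi),
            (g (Complex.exp ((θ : ℂ) * Complex.I)) : ℂ) *
              Complex.exp (-(((k + 1 : ℤ) : ℂ) * (θ : ℂ) * Complex.I))) := by
        rw [← intervalIntegral.integral_const_mul, ← intervalIntegral.integral_const_mul,
          ← intervalIntegral.integral_add ((ii_ek hg hC (k - 1) _ _).const_mul _)
            ((ii_ek hg hC (k + 1) _ _).const_mul _)]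
        apply intervalIntegral.integral_congr
        intro θ _
        simp only
        rw [Complex.exp_ofReal_mul_I_re]
        have e1 : Complex.exp (-(((k - 1 : ℤ) : ℂ) * (θ : ℂ) * Complex.I)) =
            Complex.exp (-((k : ℂ) * (θ : ℂ) * Complex.I)) * Complex.exp ((θ : ℂ) * Complex.I) := by
          rw [← Complex.exp_add]; congr 1; push_cast; ring
        have e2 : Complex.exp (-(((k + 1 : ℤ) : ℂ) * (θ : ℂ) * Complex.I)) =
            Complex.exp (-((k : ℂ) * (θ : ℂ) * Complex.I)) * Complex.exp (-(θ : ℂ) * Complex.I) := by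
          rw [← Complex.exp_add]; congr 1; push_cast; ring
        have e3 : ((Real.cos θ : ℝ) : ℂ) =
            (Complex.exp ((θ : ℂ) * Complex.I) + Complex.exp (-(θ : ℂ) * Complex.I)) / 2 := by
          rw [Complex.ofReal_cos]; rfl
        rw [e1, e2]
        push_cast
        rw [← Complex.ofReal_cos, e3]
        ring
      rw [h1]
      ring

end Pool.Agent.H77.EN
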