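import Pool.Agent.H93.EN.Targets4

/-!
# B3: reflections of the circle, averages and modes
-/

namespace Pool.Agent.H77.EN

open MeasureTheory Set Metric Filter Topology Pool.Agent.H93.EN
open Pool.Agent.H93.BL hiding T_B1 T_B2 T_B3 T_SB T_SC

theorem rf_rf {a : ℂ} (ha : ‖a‖ = 1) (w : ℂ) : rf a (rf a w) = w := by
  have h : a * (starRingEnd ℂ) a = 1 := by
    rw [Complex.mul_conj, Complex.normSq_eq_norm_sq, ha]; norm_num
  unfold rf
  rw [map_mul, map_pow, Complex.conj_conj]
  calc a ^ 2 * ((starRingEnd ℂ) a ^ 2 * w) = (a * (starRingEnd ℂ) a) ^ 2 * w := by ring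
    _ = w := by rw [h]; ring

theorem norm_rf {a : ℂ} (ha : ‖a‖ = 1) (w : ℂ) : ‖rf a w‖ = ‖w‖ := by
  unfold rf
  rw [norm_mul, norm_pow, ha, Complex.norm_conj]; ring

theorem rf_exp {a : ℂ} (ha : ‖a‖ = 1) (θ : ℝ) :
    rf a (Complex.exp ((θ : ℂ) * Complex.I)) =
      Complex.exp (((2 * a.arg - θ : ℝ) : ℂ) * Complex.I) := by
  have h : a = Complex.exp ((a.arg : ℂ) * Complex.I) := by
    have := Complex.norm_mul_exp_arg_mul_I a
    rw [ha] at this
    simpa using this.symm
  unfold rf
  rw [← Complex.exp_conj, map_mul, Complex.conj_I, Complex.conj_ofReal]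
  conv_lhs => rw [h]
  rw [← Complex.exp_nat_mul, ← Complex.exp_add]
  congr 1
  push_cast
  ring

/-- a periodic function, reflected -/
theorem int_refl {E : Type} [NormedAddCommGroup E] [NormedSpace ℝ E] (F : ℝ → E)
    (hF : Function.Periodic F (2 * Real.pi)) (d : ℝ) :
    ∫ θ in (0 : ℝ)..(2 * Real.pi), F (d - θ) = ∫ θ in (0 : ℝ)..(2 * Real.pi), F θ := by
  rw [intervalIntegral.integral_comp_sub_left, sub_zero]
  have h := hF.intervalIntegral_add_eq (d - 2 * Real.pi) 0
  rw [sub_add_cancel, zero_add] at h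
  exact h

theorem exp_per (x : ℝ) : Complex.exp (((x + 2 * Real.pi : ℝ) : ℂ) * Complex.I) =
    Complex.exp ((x : ℂ) * Complex.I) := by
  have : ((x + 2 * Real.pi : ℝ) : ℂ) * Complex.I = (x : ℂ) * Complex.I + 2 * Real.pi * Complex.I := by
    push_cast; ring
  rw [this, Complex.exp_add, Complex.exp_two_pi_mul_I, mul_one]

theorem b3 : T_B3 := by
  intro g a ha
  have hexp : ∀ (k : ℤ) (c : ℂ) (x : ℝ),
      Complex.exp ((k : ℂ) * (c - ((x + 2 * Real.pi : ℝ) : ℂ)) * Complex.I) =
      Complex.exp ((k : ℂ) * (c - (x : ℂ)) * Complex.I) := by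
    intro k c x
    have e : (k : ℂ) * (c - ((x + 2 * Real.pi : ℝ) : ℂ)) * Complex.I =
        (k : ℂ) * (c - (x : ℂ)) * Complex.I + ((-k : ℤ) : ℂ) * (2 * Real.pi * Complex.I) := by
      push_cast; ring
    rw [e, Complex.exp_add, Complex.exp_int_mul_two_pi_mul_I, mul_one]
  refine ⟨?_, ?_, fun w => ⟨rf_rf ha w, norm_rf ha w⟩⟩
  · unfold av
    congr 1
    simp only [rf_exp ha]
    exact int_refl (fun x => g (Complex.exp ((x : ℂ) * Complex.I)))
      (fun x => by simp only [exp_per]) (2 * a.arg)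
  · intro k
    have h1 : ∫ θ in (0 : ℝ)..(2 * Real.pi),
        (g (rf a (Complex.exp ((θ : ℂ) * Complex.I))) : ℂ) *
          Complex.exp (-((k : ℂ) * (θ : ℂ) * Complex.I)) =
        ∫ θ in (0 : ℝ)..(2 * Real.pi),
          (g (Complex.exp ((θ : ℂ) * Complex.I)) : ℂ) *
            Complex.exp ((((-k : ℤ) : ℂ)) * (((2 * a.arg : ℝ) : ℂ) - (θ : ℂ)) * Complex.I) := by
      have h2 := int_refl (fun x : ℝ => (g (Complex.exp ((x : ℂ) * Complex.I)) : ℂ) *
            Complex.exp ((((-k : ℤ) : ℂ)) * (((2 * a.arg : ℝ) : ℂ) - (x : ℂ)) * Complex.I))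
          (fun x => by
            show (g (Complex.exp (((x + 2 * Real.pi : ℝ) : ℂ) * Complex.I)) : ℂ) *
              Complex.exp ((((-k : ℤ) : ℂ)) * (((2 * a.arg : ℝ) : ℂ) -
                ((x + 2 * Real.pi : ℝ) : ℂ)) * Complex.I) = _
            rw [exp_per, hexp]) (2 * a.arg)
      rw [← h2]
      apply intervalIntegral.integral_congr
      intro θ _
      simp only
      rw [rf_exp ha]
      congr 2
      push_cast
      ring
    have h3 : (starRingEnd ℂ) (∫ θ in (0 : ℝ)..(2 * Real.pi),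
        (g (Complex.exp ((θ : ℂ) * Complex.I)) : ℂ) *
          Complex.exp (-((k : ℂ) * (θ : ℂ) * Complex.I))) =
        ∫ θ in (0 : ℝ)..(2 * Real.pi), (g (Complex.exp ((θ : ℂ) * Complex.I)) : ℂ) *
          Complex.exp ((k : ℂ) * (θ : ℂ) * Complex.I) := by
      rw [← intervalIntegral.intervalIntegral_conj]
      apply intervalIntegral.integral_congr
      intro θ _
      simp only
      rw [map_mul, Complex.conj_ofReal, ← Complex.exp_conj]
      congr 2
      rw [map_neg, map_mul, map_mul, Complex.conj_I, Complex.conj_ofReal, map_intCast]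
      ring
    have ha0 : a ^ 2 = Complex.exp (((2 * a.arg : ℝ) : ℂ) * Complex.I) := by
      have h : a = Complex.exp ((a.arg : ℂ) * Complex.I) := by
        have := Complex.norm_mul_exp_arg_mul_I a
        rw [ha] at this
        simpa using this.symm
      conv_lhs => rw [h]
      rw [← Complex.exp_nat_mul]
      congr 1
      push_cast
      ring
    unfold md
    rw [h1, map_mul, h3, Complex.conj_ofReal, ha0, ← Complex.exp_int_mul]
    have h4 : ∫ θ in (0 : ℝ)..(2 * Real.pi),
          (g (Complex.exp ((θ : ℂ) * Complex.I)) : ℂ) *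
            Complex.exp ((((-k : ℤ) : ℂ)) * (((2 * a.arg : ℝ) : ℂ) - (θ : ℂ)) * Complex.I) =
        Complex.exp ((((-k : ℤ) : ℂ)) * (((2 * a.arg : ℝ) : ℂ) * Complex.I)) *
        ∫ θ in (0 : ℝ)..(2 * Real.pi), (g (Complex.exp ((θ : ℂ) * Complex.I)) : ℂ) *
          Complex.exp ((k : ℂ) * (θ : ℂ) * Complex.I) := by
      rw [← intervalIntegral.integral_const_mul]
      apply intervalIntegral.integral_congr
      intro θ _
      simp only
      rw [mul_left_comm, ← Complex.exp_add]
      congr 2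
      push_cast
      ring
    rw [h4]
    ring

end Pool.Agent.H77.EN
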