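import Pool.Agent.H77.EN.CXU

/-!
# Bright corners: almost all directions are lit if all other sides belong to `E` (CXF)
-/

namespace Pool.Agent.H77.EN

open MeasureTheory Set Pool.Agent.H93.BL Pool.Agent.H93.EN Pool.Agent.H79.BN

theorem fin_all {n : ℕ} [NeZero n] (S : Fin n → Prop) (a : Fin n) (ha : S a)
    (hs : ∀ k, S k → S (k + 1)) (k : Fin n) : S k := by
  have h : ∀ m : ℕ, S (a + Fin.ofNat n m) := by
    intro m
    induction m with
    | zero =>
      have : Fin.ofNat n 0 = 0 := rfl
      rw [this, add_zero]; exact ha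
    | succ m ih =>
      have e : a + Fin.ofNat n (m + 1) = a + Fin.ofNat n m + 1 := by
        rw [add_assoc]
        congr 1
        apply Fin.ext
        simp [Fin.ofNat, Fin.val_add]
      rw [e]; exact hs _ ih
  have h1 := h (k - a).val
  rw [Fin.ofNat_val_eq_self] at h1
  have h2 : a + (k - a) = k := by abel
  rw [h2] at h1
  exact h1

theorem cxf : T_CXF := by
  intro n _ P E i hn hC hP hE
  have v0 := Pool.Agent.H79.BN.v0
  have v1 := Pool.Agent.H42.BN.v1 v0
  obtain ⟨hne, hinj, -, hnn, hze⟩ := v1 n P.p hn hP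
  have hfin : (Set.range (fun k : Fin n => (cc P i (P.p k)).arg)).Finite := Set.finite_range _
  have hae : ∀ᵐ φ : ℝ, φ ∉ Set.range (fun k : Fin n => (cc P i (P.p k)).arg) :=
    hfin.countable.ae_notMem volume
  filter_upwards [hae] with φ hφ hφI
  have hang := ang_eq P hn hC hP i
  have him : ∀ k, 0 ≤ (cc P i (P.p k)).im := by
    intro k
    have h := hnn (i + 1) k
    rw [cc_im P hC] at h
    by_contra h4
    have := mul_neg_of_pos_of_neg (P.len_pos (i + 1)) (not_le.1 h4)
    linarith
  have hc0 : ∀ k, k ≠ i + 1 → cc P i (P.p k) ≠ 0 := by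
    intro k hk
    exact div_ne_zero (sub_ne_zero.2 fun h => hk (hinj _ _ h)) (P.u_ne (i + 1))
  set d : ℂ := Complex.exp ((φ : ℂ) * Complex.I) with hd
  have hf : ∀ k, cr (cc P i (P.p k)) d =
      ‖cc P i (P.p k)‖ * Real.sin (φ - (cc P i (P.p k)).arg) := by
    intro k
    conv_lhs => rw [polar (cc P i (P.p k))]
    have := cr_exp ‖cc P i (P.p k)‖ 1 (cc P i (P.p k)).arg φ
    simpa using this
  have hpi : ang P.p i ≤ Real.pi := by rw [hang]; exact Complex.arg_le_pi _
  have hfi : cr (cc P i (P.p i)) d < 0 := by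
    rw [hf]
    obtain ⟨i1, -⟩ := v0 n hn i
    have h1 := norm_pos_iff.2 (hc0 i i1.symm)
    apply mul_neg_of_pos_of_neg h1
    apply Real.sin_neg_of_neg_of_neg_pi_lt
    · rw [← hang]; linarith [hφI.2]
    · rw [← hang]; linarith [hφI.1]
  have hf2 : 0 < cr (cc P i (P.p (i + 2))) d := by
    rw [hf, cc_two P hn hC]
    have h1 := P.len_pos (i + 1)
    rw [Complex.arg_ofReal_of_nonneg h1.le, sub_zero]
    apply mul_pos
    · rw [Complex.norm_real]; exact norm_pos_iff.2 h1.ne'
    · exact Real.sin_pos_of_pos_of_lt_pi hφI.1 (by linarith [hφI.2])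
  -- the side which is hit
  have hex : ∃ e : Fin n, e ≠ i ∧ e ≠ i + 1 ∧ 0 < cr (cc P i (P.p e)) d ∧
      cr (cc P i (P.p (e + 1))) d < 0 := by
    by_contra hcon
    have hall : ∀ k, 0 < cr (cc P i (P.p k)) d := by
      apply fin_all (fun k => 0 < cr (cc P i (P.p k)) d) (i + 2) hf2
      intro e ih
      have hei : e ≠ i := by
        intro h
        rw [h] at ih
        linarith
      have hei1 : e ≠ i + 1 := by
        intro h
        rw [h] at ih
        have : cc P i (P.p (i + 1)) = 0 := by simp [cc]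
        rw [this] at ih
        simp [cr] at ih
      have hne1 : e + 1 ≠ i + 1 := fun h => hei (add_right_cancel h)
      have h1 : ¬ cr (cc P i (P.p (e + 1))) d < 0 := fun h => hcon ⟨e, hei, hei1, ih, h⟩
      refine lt_of_le_of_ne (not_lt.1 h1) ?_
      intro h0
      rw [hf] at h0
      have h2 := norm_pos_iff.2 (hc0 (e + 1) hne1)
      have h3 : Real.sin (φ - (cc P i (P.p (e + 1))).arg) = 0 := by
        rcases mul_eq_zero.1 h0.symm with h | h
        · exact absurd h h2.ne'
        · exact h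
      have hb := arg_bd _ (him (e + 1))
      have h4 : φ - (cc P i (P.p (e + 1))).arg ≠ 0 := by
        intro h
        exact hφ ⟨e + 1, by simp only; linarith⟩
      rcases lt_or_gt_of_ne h4 with h5 | h5
      · have := Real.sin_neg_of_neg_of_neg_pi_lt h5 (by linarith [hφI.1])
        linarith
      · have := Real.sin_pos_of_pos_of_lt_pi h5 (by linarith [hφI.2])
        linarith
    have h1 := hall i
    linarith
  obtain ⟨e, he1, he2, he3, he4⟩ := hex
  have huv : uv P (i + 1) φ = d * P.u (i + 1) := by unfold uv; rw [hd]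
  refine ray P E i e hn hC hP (hE e he1 he2) he1 he2 _ ?_ ?_ ?_
  · unfold uv; rw [norm_mul, P.norm_u, Complex.norm_exp_ofReal_mul_I, one_mul]
  · rw [← cc_mul, huv, cr_mul_unit _ _ _ (P.norm_u (i + 1))]; exact he3
  · rw [← cc_mul, huv, cr_mul_unit _ _ _ (P.norm_u (i + 1)), cr_swap]
    linarith

end Pool.Agent.H77.EN
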