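import Pool.Agent.H93.EN.Targets2
import Pool.Agent.H93.BL.Basic
import Pool.Agent.H26.BL.B2
import Pool.Agent.H79.BN.Triv
import Pool.Agent.H42.BN.V1
import Pool.Agent.H42.BN.V2
import Pool.Agent.H74.BN.V5

/-!
# Bright corners: visibility of an open set from a vertex of a strictly convex table (CXU)

The first lemmas are those of helper49 (Pool/Agent/H49/EN/CXV.lean), made available for CXF.
-/

namespace Pool.Agent.H77.EN

open MeasureTheory Set Pool.Agent.H93.BL Pool.Agent.H93.EN Pool.Agent.H79.BN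

/-! ### Elementary facts -/

theorem cr_exp (r s a b : ℝ) :
    cr ((r : ℂ) * Complex.exp ((a : ℂ) * Complex.I)) ((s : ℂ) * Complex.exp ((b : ℂ) * Complex.I)) =
      r * s * Real.sin (b - a) := by
  rw [cr_smul_left, cr_smul_right, Real.sin_sub]
  simp only [cr, Complex.exp_ofReal_mul_I_re, Complex.exp_ofReal_mul_I_im]
  ring

theorem cr_mul_unit (x y u : ℂ) (hu : ‖u‖ = 1) : cr (x * u) (y * u) = cr x y := by
  have h1 : u.re * u.re + u.im * u.im = 1 := by
    have := Complex.sq_norm u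
    rw [hu, Complex.normSq_apply] at this; linarith
  simp only [cr, Complex.mul_re, Complex.mul_im]
  linear_combination (x.re * y.im - x.im * y.re) * h1

theorem polar (x : ℂ) : x = (‖x‖ : ℂ) * Complex.exp ((x.arg : ℂ) * Complex.I) :=
  (Complex.norm_mul_exp_arg_mul_I x).symm

theorem arg_bd (x : ℂ) (hx : 0 ≤ x.im) : 0 ≤ x.arg ∧ x.arg ≤ Real.pi :=
  ⟨Complex.arg_nonneg_iff.2 hx, Complex.arg_le_pi x⟩

theorem arg_lt (x y : ℂ) (hx : 0 ≤ x.im) (hy : 0 ≤ y.im) (h : 0 < cr x y) :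
    x.arg < y.arg ∧ y.arg - x.arg < Real.pi := by
  have hx' := arg_bd x hx
  have hy' := arg_bd y hy
  have e : cr x y = ‖x‖ * ‖y‖ * Real.sin (y.arg - x.arg) := by
    conv_lhs => rw [polar x, polar y]
    exact cr_exp _ _ _ _
  have hn : 0 ≤ ‖x‖ * ‖y‖ := by positivity
  have hs : 0 < Real.sin (y.arg - x.arg) := by
    by_contra hc
    have := mul_nonpos_of_nonneg_of_nonpos hn (not_lt.1 hc)
    linarith
  constructor
  · by_contra hc
    have := Real.sin_nonpos_of_nonpos_of_neg_pi_le (x := y.arg - x.arg) (by linarith [not_lt.1 hc])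
      (by linarith)
    linarith
  · by_contra hc
    have e1 : y.arg - x.arg = Real.pi := le_antisymm (by linarith) (not_lt.1 hc)
    rw [e1, Real.sin_pi] at hs
    exact lt_irrefl _ hs

theorem grassmann (A B d : ℂ) :
    (cr A B : ℂ) * d = (cr d B : ℂ) * A + (cr A d : ℂ) * B := by
  apply Complex.ext
  · simp only [cr, Complex.add_re, Complex.mul_re, Complex.ofReal_re, Complex.ofReal_im]; ring
  · simp only [cr, Complex.add_im, Complex.mul_im, Complex.ofReal_re, Complex.ofReal_im]; ring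

variable {n : ℕ} [NeZero n]

theorem ed_eq (P : Polygon (Fin n)) (hC : Cyc P) (k : Fin n) :
    ed P.p k = (P.len k : ℂ) * P.u k := by
  unfold ed; rw [← hC k, P.q_sub k]

theorem cr_ed (P : Polygon (Fin n)) (hC : Cyc P) (k : Fin n) (x : ℂ) :
    cr (ed P.p k) x = P.len k * cr (P.u k) x := by
  rw [ed_eq P hC k, cr_smul_left]

/-- the hit point and the cross products along the ray -/
theorem ray (P : Polygon (Fin n)) (E : Set (Fin n)) (i e : Fin n) (hn : 3 ≤ n) (hC : Cyc P)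
    (hP : ConvPos P.p) (he : e ∈ E) (h1 : e ≠ i) (h2 : e ≠ i + 1) (d : ℂ) (hd : ‖d‖ = 1)
    (hA : 0 < cr (P.p e - P.p (i + 1)) d) (hB : 0 < cr d (P.p (e + 1) - P.p (i + 1))) :
    Reach P E (P.p (i + 1)) d := by
  have v0 := Pool.Agent.H79.BN.v0
  have v1 := Pool.Agent.H42.BN.v1 v0
  have v2 := Pool.Agent.H42.BN.v2 v0 v1
  have v5 := Pool.Agent.H74.BN.V5.v5 v1 v2
  obtain ⟨-, -, -, hnn, hze⟩ := v1 n P.p hn hP
  have hei : e + 1 ≠ i + 1 := fun h => h1 (add_right_cancel h)
  set v := P.p (i + 1) with hv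
  set A := P.p e - v with hAdef
  set B := P.p (e + 1) - v with hBdef
  set a := cr A d with ha
  set b := cr d B with hb
  have hab : 0 < a + b := by linarith
  have hcAB : 0 < cr A B := by
    have h := hP e (i + 1) h2.symm hei.symm
    have e1 : cr (ed P.p e) (v - P.p e) = cr A B := by
      simp only [cr, ed, hAdef, hBdef, Complex.sub_re, Complex.sub_im]; ring
    rw [← e1]; exact h
  set lam := a / (a + b) with hlam
  have hl0 : 0 < lam := div_pos hA hab
  have hl1 : lam < 1 := by rw [hlam, div_lt_one hab]; linarith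
  set t := cr A B / (a + b) with ht
  have ht0 : 0 < t := div_pos hcAB hab
  set z := P.p e + (lam : ℂ) * ed P.p e with hz
  have hzt : z = v + (t : ℂ) * d := by
    have g := grassmann A B d
    have hne : ((a + b : ℝ) : ℂ) ≠ 0 := by exact_mod_cast hab.ne'
    have e1 : ed P.p e = B - A := by rw [hAdef, hBdef, ed]; ring
    have e2 : P.p e = v + A := by rw [hAdef]; ring
    have e3 : ((a + b : ℝ) : ℂ) * ((lam : ℂ) * (B - A)) = (a : ℂ) * (B - A) := by
      rw [← mul_assoc, ← Complex.ofReal_mul, hlam]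
      congr 2
      field_simp
    have e4 : ((a + b : ℝ) : ℂ) * ((t : ℂ) * d) = (cr A B : ℂ) * d := by
      rw [← mul_assoc, ← Complex.ofReal_mul, ht]
      congr 2
      field_simp
    rw [hz, e1]
    apply mul_left_cancel₀ hne
    calc ((a + b : ℝ) : ℂ) * (P.p e + (lam : ℂ) * (B - A))
        = ((a + b : ℝ) : ℂ) * (v + A) + ((a + b : ℝ) : ℂ) * ((lam : ℂ) * (B - A)) := by
          rw [← e2]; ring
      _ = ((a + b : ℝ) : ℂ) * v + ((b : ℂ) * A + (a : ℂ) * B) := by
          rw [e3]; push_cast; ring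
      _ = ((a + b : ℝ) : ℂ) * (v + (t : ℂ) * d) := by rw [mul_add, e4, g]
  -- the cross products
  have hzk : ∀ k, cr (ed P.p k) (z - P.p k) =
      (1 - lam) * cr (ed P.p k) (P.p e - P.p k) + lam * cr (ed P.p k) (P.p (e + 1) - P.p k) := by
    intro k
    rw [show z - P.p k = ((1 - lam : ℝ) : ℂ) * (P.p e - P.p k) +
      (lam : ℂ) * (P.p (e + 1) - P.p k) by rw [hz, ed]; push_cast; ring, cr_add_right,
      cr_smul_right, cr_smul_right]
  have hz0 : ∀ k, 0 ≤ cr (ed P.p k) (z - P.p k) := by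
    intro k; rw [hzk k]
    exact add_nonneg (mul_nonneg (by linarith) (hnn k e)) (mul_nonneg hl0.le (hnn k (e + 1)))
  have hz1 : ∀ k, k ≠ e → 0 < cr (ed P.p k) (z - P.p k) := by
    intro k hk
    rw [hzk k]
    rcases (hnn k e).lt_or_eq with h | h
    · exact add_pos_of_pos_of_nonneg (mul_pos (by linarith) h) (mul_nonneg hl0.le (hnn k (e + 1)))
    · rcases (hnn k (e + 1)).lt_or_eq with h' | h'
      · exact add_pos_of_nonneg_of_pos (mul_nonneg (by linarith) (hnn k e)) (mul_pos hl0 h')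
      · exfalso
        rcases hze k e h.symm with h3 | h3
        · exact hk h3.symm
        · rcases hze k (e + 1) h'.symm with h4 | h4
          · have := (v0 n hn k)
            rw [h3, this.2.2.2.1] at h4
            exact this.2.1 h4
          · exact hk (add_right_cancel h4).symm
  have hv1 : ∀ k, k ≠ i → k ≠ i + 1 → 0 < cr (ed P.p k) (v - P.p k) := fun k hk hk' =>
    hP k (i + 1) hk'.symm (fun h => hk (add_right_cancel h).symm)
  have hΩ : ∀ r ∈ Ioo 0 t, v + (r : ℂ) * d ∈ P.Ω := by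
    intro r hr
    rw [v5 n P hn hC hP]
    intro k
    have hrt : r / t < 1 := (div_lt_one ht0).2 hr.2
    have hrt0 : 0 < r / t := div_pos hr.1 ht0
    have e1 : v + (r : ℂ) * d - P.p k = ((1 - r / t : ℝ) : ℂ) * (v - P.p k) +
        ((r / t : ℝ) : ℂ) * (z - P.p k) := by
      rw [hzt]
      have : ((r / t : ℝ) : ℂ) * ((t : ℂ) * d) = (r : ℂ) * d := by
        push_cast
        have : (t : ℂ) ≠ 0 := by exact_mod_cast ht0.ne'
        field_simp
      calc v + (r : ℂ) * d - P.p k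
          = v - P.p k + ((r / t : ℝ) : ℂ) * ((t : ℂ) * d) := by rw [this]; ring
        _ = _ := by push_cast; ring
    rw [e1, cr_add_right, cr_smul_right, cr_smul_right]
    by_cases hk : k ≠ i ∧ k ≠ i + 1
    · exact add_pos_of_pos_of_nonneg (mul_pos (by linarith) (hv1 k hk.1 hk.2))
        (mul_nonneg hrt0.le (hz0 k))
    · refine add_pos_of_nonneg_of_pos (mul_nonneg (by linarith) (hnn k (i + 1)))
        (mul_pos hrt0 (hz1 k ?_))
      rintro rfl
      exact hk ⟨h1, h2⟩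
  have hzo : z ∈ openSegment ℝ (P.p e) (P.q e) := by
    rw [P.mem_openSegment_iff]
    refine ⟨lam * P.len e, mul_pos hl0 (P.len_pos e), by nlinarith [P.len_pos e], ?_⟩
    rw [hz, ed_eq P hC e]; push_cast; ring
  have hneg : ip d (P.n e) < 0 := by
    rw [P.ip_n]
    have e1 := cr_ed P hC e d
    have e2 : cr (ed P.p e) d = -(a + b) := by
      rw [show ed P.p e = B - A by rw [hAdef, hBdef, ed]; ring, cr_sub_left, cr_swap B d]; ring
    have hl := P.len_pos e
    by_contra hc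
    have := mul_nonneg hl.le (not_lt.1 hc)
    linarith
  obtain ⟨s, φ', hph, hpos, hdir⟩ := Pool.Agent.H26.BL.B2.b2 (Fin n) P e z (P.refl e d)
    ⟨hzo, by rw [P.norm_refl, hd], by rw [P.ip_refl_n]; linarith⟩
  exact ⟨(e, s, φ'), hph, ⟨t, ht0, by rw [hpos, hzt], hΩ⟩, hdir,
    ⟨(e, s, φ'), Relation.ReflTransGen.refl, he⟩⟩

/-! ### The frame of the side `i + 1` -/

/-- the vector to the point `x` in the frame of the side `i + 1` -/
noncomputable def cc (P : Polygon (Fin n)) (i : Fin n) (x : ℂ) : ℂ := (x - P.p (i + 1)) / P.u (i + 1)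

theorem cc_mul (P : Polygon (Fin n)) (i : Fin n) (x : ℂ) :
    cc P i x * P.u (i + 1) = x - P.p (i + 1) := div_mul_cancel₀ _ (P.u_ne (i + 1))

theorem cr_cc (P : Polygon (Fin n)) (i : Fin n) (x y : ℂ) :
    cr (cc P i x) (cc P i y) = cr (x - P.p (i + 1)) (y - P.p (i + 1)) := by
  rw [← cc_mul P i x, ← cc_mul P i y, cr_mul_unit _ _ _ (P.norm_u (i + 1))]

theorem cc_im (P : Polygon (Fin n)) (hC : Cyc P) (i : Fin n) (x : ℂ) :
    cr (ed P.p (i + 1)) (x - P.p (i + 1)) = P.len (i + 1) * (cc P i x).im := by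
  rw [cr_ed P hC]
  congr 1
  have := cr_mul_unit 1 (cc P i x) (P.u (i + 1)) (P.norm_u (i + 1))
  rw [one_mul, cc_mul P i x] at this
  rw [this]; simp [cr]

theorem cr_i (P : Polygon (Fin n)) (i : Fin n) (x : ℂ) :
    cr (cc P i x) (cc P i (P.p i)) = cr (ed P.p i) (x - P.p i) := by
  rw [cr_cc]
  simp only [cr, ed, Complex.sub_re, Complex.sub_im]; ring

theorem cc_two (P : Polygon (Fin n)) (hn : 3 ≤ n) (hC : Cyc P) (i : Fin n) :
    cc P i (P.p (i + 2)) = (P.len (i + 1) : ℂ) := by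
  obtain ⟨i1, i2, i3, i4, -⟩ := Pool.Agent.H79.BN.v0 n hn i
  have := ed_eq P hC (i + 1)
  rw [ed, i4] at this
  unfold cc
  rw [this, mul_div_cancel_right₀ _ (P.u_ne (i + 1))]

theorem ang_eq (P : Polygon (Fin n)) (hn : 3 ≤ n) (hC : Cyc P) (hP : ConvPos P.p) (i : Fin n) :
    ang P.p i = (cc P i (P.p i)).arg := by
  have v0 := Pool.Agent.H79.BN.v0
  have v1 := Pool.Agent.H42.BN.v1 v0
  obtain ⟨hne, hinj, -, hnn, hze⟩ := v1 n P.p hn hP
  obtain ⟨i1, i2, i3, i4, -⟩ := v0 n hn i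
  have him : 0 ≤ (cc P i (P.p i)).im := by
    have h := hnn (i + 1) i
    rw [cc_im P hC] at h
    by_contra h4
    have := mul_neg_of_pos_of_neg (P.len_pos (i + 1)) (not_le.1 h4)
    linarith
  unfold ang EuclideanGeometry.angle
  rw [vsub_eq_sub, vsub_eq_sub,
    Complex.angle_eq_abs_arg (sub_ne_zero.2 fun h => i1 (hinj _ _ h).symm)
    (sub_ne_zero.2 fun h => i3 (hinj _ _ h))]
  have e1 : (P.p i - P.p (i + 1)) / (P.p (i + 2) - P.p (i + 1)) =
      (((P.len (i + 1))⁻¹ : ℝ) : ℂ) * cc P i (P.p i) := by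
    rw [← cc_mul P i (P.p (i + 2)), ← cc_mul P i (P.p i), cc_two P hn hC,
      mul_div_mul_right _ _ (P.u_ne (i + 1))]
    push_cast
    rw [div_eq_inv_mul]
  rw [e1, Complex.arg_real_mul _ (inv_pos.2 (P.len_pos (i + 1))), abs_of_nonneg (arg_bd _ him).1]

theorem cxu : T_CXU := by
  intro n _ P U i hn hC hP hU hUΩ hUne
  obtain ⟨x, hx⟩ := hUne
  have v0 := Pool.Agent.H79.BN.v0
  have v1 := Pool.Agent.H42.BN.v1 v0
  have v2 := Pool.Agent.H42.BN.v2 v0 v1
  have v5 := Pool.Agent.H74.BN.V5.v5 v1 v2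
  obtain ⟨hne, hinj, -, hnn, hze⟩ := v1 n P.p hn hP
  have hxΩ := (v5 n P hn hC hP x).1 (hUΩ hx)
  have him : 0 < (cc P i x).im := by
    have h := hxΩ (i + 1)
    rw [cc_im P hC] at h
    exact (mul_pos_iff_of_pos_left (P.len_pos (i + 1))).1 h
  have himi : 0 ≤ (cc P i (P.p i)).im := by
    have h := hnn (i + 1) i
    rw [cc_im P hC] at h
    by_contra h4
    have := mul_neg_of_pos_of_neg (P.len_pos (i + 1)) (not_le.1 h4)
    linarith
  have h0 : 0 < (cc P i x).arg := by
    have h := (arg_lt 1 (cc P i x) (by simp) him.le (by simpa [cr] using him)).1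
    rwa [Complex.arg_one] at h
  have h1 : (cc P i x).arg < ang P.p i := by
    rw [ang_eq P hn hC hP i]
    apply (arg_lt _ _ him.le himi _).1
    rw [cr_i]
    exact hxΩ i
  refine ⟨(cc P i x).arg, ⟨h0, h1⟩, Or.inl ?_⟩
  have hcne : cc P i x ≠ 0 := by
    intro h; rw [h] at him; simp at him
  set r := ‖cc P i x‖ with hr
  have hr0 : 0 < r := norm_pos_iff.2 hcne
  have hxe : P.p (i + 1) + (r : ℂ) * uv P (i + 1) (cc P i x).arg = x := by
    have e1 : (r : ℂ) * uv P (i + 1) (cc P i x).arg = cc P i x * P.u (i + 1) := by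
      conv_rhs => rw [polar (cc P i x)]
      unfold uv
      rw [← hr]; ring
    rw [e1, cc_mul]; ring
  refine ⟨r, hr0.le, by rw [hxe]; exact hx, ?_⟩
  intro r' hr'
  rw [v5 n P hn hC hP]
  intro k
  set d := uv P (i + 1) (cc P i x).arg with hd
  have hq0 : 0 < r' / r := div_pos hr'.1 hr0
  have hq1 : r' / r ≤ 1 := (div_le_one hr0).2 hr'.2
  have e1 : P.p (i + 1) + (r' : ℂ) * d - P.p k =
      ((1 - r' / r : ℝ) : ℂ) * (P.p (i + 1) - P.p k) + ((r' / r : ℝ) : ℂ) * (x - P.p k) := by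
    have e2 : x = P.p (i + 1) + (r : ℂ) * d := hxe.symm
    have e3 : ((r' / r : ℝ) : ℂ) * ((r : ℂ) * d) = (r' : ℂ) * d := by
      push_cast
      have : (r : ℂ) ≠ 0 := by exact_mod_cast hr0.ne'
      field_simp
    rw [e2]
    calc P.p (i + 1) + (r' : ℂ) * d - P.p k
        = P.p (i + 1) - P.p k + ((r' / r : ℝ) : ℂ) * ((r : ℂ) * d) := by rw [e3]; ring
      _ = _ := by push_cast; ring
  rw [e1, cr_add_right, cr_smul_right, cr_smul_right]
  exact add_pos_of_nonneg_of_pos (mul_nonneg (by linarith) (hnn k (i + 1)))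
    (mul_pos hq0 (hxΩ k))

end Pool.Agent.H77.EN
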